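import Pool.Agent.Q55.FC.Stm

/-!
# Project FC (helper55), job FLA: flatness in terms of the relation `TE`
-/

set_option autoImplicit false

universe u

namespace Pool.Agent.Q182.FC

open MulOpposite Pool.Agent.Q55.FC

/-- the basic step of the tensor product -/
def Stp (S : Type u) [Monoid S] (A X : Type u) [MulAction Sᵐᵒᵖ A] [MulAction S X] (p q : A × X) : Prop :=
  ∃ (a : A) (s : S) (x : X), p = (op s • a, x) ∧ q = (a, s • x)

theorem eq_of_gen {S : Type u} [Monoid S] {A X : Type u} [MulAction Sᵐᵒᵖ A] [MulAction S X] {p q : A × X}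
    (h : Relation.EqvGen (Stp S A X) p q) : (Quot.mk _ p : Tens S A X) = Quot.mk _ q := by
  exact Quot.eqvGen_sound h

theorem gen_of_eq {S : Type u} [Monoid S] {A X : Type u} [MulAction Sᵐᵒᵖ A] [MulAction S X] {p q : A × X}
    (h : (Quot.mk _ p : Tens S A X) = Quot.mk _ q) : Relation.EqvGen (Stp S A X) p q := by
  exact Quot.eqvGen_exact h

theorem te_univ {S : Type u} [Monoid S] {A X : Type u} [MulAction Sᵐᵒᵖ A] [MulAction S X] {p q : A × X} :
    TE S (Set.univ : Set A) (Set.univ : Set X) p q ↔ Relation.EqvGen (Stp S A X) p q := by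
  constructor
  · intro h
    refine Relation.EqvGen.mono ?_ _ _ h
    rintro _ _ ⟨a, -, s, x, -, rfl, rfl⟩
    exact ⟨a, s, x, rfl, rfl⟩
  · intro h
    refine Relation.EqvGen.mono ?_ _ _ h
    rintro _ _ ⟨a, s, x, rfl, rfl⟩
    exact ⟨a, Set.mem_univ _, s, x, Set.mem_univ _, rfl, rfl⟩

theorem te_range {S : Type u} [Monoid S] {A X Y : Type u} [MulAction Sᵐᵒᵖ A] [MulAction S X] [MulAction S Y]
    (f : X →[S] Y) (hf : Function.Injective f) {p q : A × Y}
    (h : TE S (Set.univ : Set A) (Set.range f) p q) :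
    p = q ∨ ∃ (b b' : A) (x x' : X), p = (b, f x) ∧ q = (b', f x') ∧
      Relation.EqvGen (Stp S A X) (b, x) (b', x') := by
  induction h with
  | rel p q h =>
    obtain ⟨a, -, s, _, ⟨x, rfl⟩, rfl, rfl⟩ := h
    exact Or.inr ⟨op s • a, a, x, s • x, rfl, by rw [map_smul], Relation.EqvGen.rel _ _ ⟨a, s, x, rfl, rfl⟩⟩
  | refl p => exact Or.inl rfl
  | symm p q _ ih =>
    rcases ih with rfl | ⟨b, b', x, x', rfl, rfl, h⟩
    · exact Or.inl rfl
    · exact Or.inr ⟨b', b, x', x, rfl, rfl, h.symm⟩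
  | trans p q r _ _ ih1 ih2 =>
    rcases ih1 with rfl | ⟨b, b', x, x', rfl, rfl, h⟩
    · exact ih2
    · rcases ih2 with rfl | ⟨c, c', y, y', h1, rfl, h'⟩
      · exact Or.inr ⟨b, b', x, x', rfl, rfl, h⟩
      · rw [Prod.mk.injEq] at h1
        obtain ⟨rfl, h2⟩ := h1
        have h3 := hf h2
        subst h3
        exact Or.inr ⟨b, c', x, y', rfl, rfl, Relation.EqvGen.trans _ _ _ h h'⟩

theorem fla : S_Fla.{u} := by
  intro S _ A _
  constructor
  · intro hA
    refine ⟨fun Y _ a ha => ha.elim, fun Y _ X _ b _ x _ a ha => ha.elim, ?_⟩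
    intro Y _ X hX b _ b' _ x hx x' hx' h
    left
    let Z : SubMulAction S Y := ⟨X, fun s {y} hy => hX s y hy⟩
    let f : Z →[S] Y := Z.subtype
    have hf : Function.Injective f := Subtype.val_injective
    have h1 := hA Z Y f hf
    have h2 : (Quot.mk _ (b, (⟨x, hx⟩ : Z)) : Tens S A Z) = Quot.mk _ (b', (⟨x', hx'⟩ : Z)) := by
      apply h1
      change (Quot.mk _ (b, x) : Tens S A Y) = Quot.mk _ (b', x')
      exact eq_of_gen (te_univ.1 h)
    have h3 := gen_of_eq h2
    have h4 : ∀ p q : A × Z, Relation.EqvGen (Stp S A Z) p q →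
        TE S (Set.univ : Set A) X (p.1, (p.2 : Y)) (q.1, (q.2 : Y)) := by
      intro p q h
      induction h with
      | rel p q h =>
        obtain ⟨a, s, x, rfl, rfl⟩ := h
        exact Relation.EqvGen.rel _ _ ⟨a, Set.mem_univ _, s, x, x.2, rfl, rfl⟩
      | refl p => exact Relation.EqvGen.refl _
      | symm p q _ ih => exact Relation.EqvGen.symm _ _ ih
      | trans p q r _ _ ih1 ih2 => exact Relation.EqvGen.trans _ _ _ ih1 ih2
    exact h4 _ _ h3
  · intro hA X Y _ _ f hf p q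
    induction p using Quot.ind with
    | mk p =>
    induction q using Quot.ind with
    | mk q =>
    intro h
    obtain ⟨b, x⟩ := p
    obtain ⟨b', x'⟩ := q
    change (Quot.mk _ (b, f x) : Tens S A Y) = Quot.mk _ (b', f x') at h
    have h1 := te_univ.2 (gen_of_eq h)
    have hX : LSub S (Set.range f) := by
      rintro s _ ⟨y, rfl⟩
      exact ⟨s • y, map_smul f s y⟩
    rcases hA.rel Y (Set.range f) hX b (Set.mem_univ _) b' (Set.mem_univ _) (f x) ⟨x, rfl⟩ (f x') ⟨x', rfl⟩ h1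
      with h2 | ⟨a, ha, -⟩
    · rcases te_range f hf h2 with h3 | ⟨c, c', y, y', h3, h4, h5⟩
      · rw [Prod.mk.injEq] at h3
        rw [h3.1, hf h3.2]
      · rw [Prod.mk.injEq] at h3 h4
        obtain ⟨rfl, h6⟩ := h3
        obtain ⟨rfl, h7⟩ := h4
        rw [hf h6, hf h7]
        exact eq_of_gen h5
    · exact ha.elim

end Pool.Agent.Q182.FC
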