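import Pool.Agent.Q188.FC.StmK

/-! Project FC (helper188), job GD (helper182): derivative of the field with respect to `p`. -/

set_option autoImplicit false

open MeasureTheory Metric

namespace Pool.Agent.Q182.FC

open Pool.Agent.Q188.FC
open Pool.Agent.W716.FV (E gam gd UU)

section

variable {n : ℕ}

lemma cc_le {φ : E n → ℝ} (hφ : Cc φ) (y : E n) : |φ y| ≤ ‖y‖ := by
  have h0 : φ 0 = 0 := by simpa using hφ.hom 0 y
  simpa [h0] using hφ.lip y 0

lemma cc_cont {φ : E n → ℝ} (hφ : Cc φ) : Continuous φ := by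
  have h : LipschitzWith 1 φ := LipschitzWith.of_dist_le_mul fun x y => by
    rw [Real.dist_eq, dist_eq_norm]
    simpa using hφ.lip x y
  exact h.continuous

lemma int_gauss0 {b : ℝ} (hb : 0 < b) : Integrable (fun y : E n => Real.exp (-(b * ‖y‖ ^ 2))) := by
  have h := (GaussianFourier.integrable_cexp_neg_mul_sq_norm_add (V := E n) (b := (b : ℂ))
    (by simpa using hb) 0 0).norm
  refine h.congr (Filter.Eventually.of_forall fun y => ?_)
  simp only [Complex.norm_exp]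
  congr 1
  simp [← Complex.ofReal_pow]

lemma int_gauss {c : ℝ} (hc : 0 < c) :
    Integrable (fun y : E n => ‖y‖ * Real.exp (-(c * ‖y‖ ^ 2))) := by
  have h := (int_gauss0 (n := n) (b := c / 2) (by positivity)).const_mul (1 + 2 / c)
  refine h.mono' (by fun_prop) (Filter.Eventually.of_forall fun y => ?_)
  rw [Real.norm_of_nonneg (by positivity)]
  have h1 : ‖y‖ ≤ (1 + 2 / c) * Real.exp (c / 2 * ‖y‖ ^ 2) := by
    have h2 : 1 + c / 2 * ‖y‖ ^ 2 ≤ Real.exp (c / 2 * ‖y‖ ^ 2) := by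
      have := Real.add_one_le_exp (c / 2 * ‖y‖ ^ 2)
      linarith
    have h3 : ‖y‖ ≤ 1 + ‖y‖ ^ 2 := by nlinarith [sq_nonneg (‖y‖ - 1), norm_nonneg y]
    have h4 : ‖y‖ ^ 2 = 2 / c * (c / 2 * ‖y‖ ^ 2) := by field_simp
    have h5 : 0 < 2 / c := by positivity
    have h6 : 0 ≤ c / 2 * ‖y‖ ^ 2 := by positivity
    have h7 : 2 / c * (c / 2 * ‖y‖ ^ 2) ≤ 2 / c * Real.exp (c / 2 * ‖y‖ ^ 2) :=
      mul_le_mul_of_nonneg_left (by linarith) h5.le
    have h8 : (1 + 2 / c) * Real.exp (c / 2 * ‖y‖ ^ 2) =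
        Real.exp (c / 2 * ‖y‖ ^ 2) + 2 / c * Real.exp (c / 2 * ‖y‖ ^ 2) := by ring
    rw [h8]
    linarith
  calc ‖y‖ * Real.exp (-(c * ‖y‖ ^ 2))
      ≤ ((1 + 2 / c) * Real.exp (c / 2 * ‖y‖ ^ 2)) * Real.exp (-(c * ‖y‖ ^ 2)) :=
        mul_le_mul_of_nonneg_right h1 (Real.exp_pos _).le
    _ = (1 + 2 / c) * Real.exp (-(c / 2 * ‖y‖ ^ 2)) := by
        rw [mul_assoc, ← Real.exp_add]
        congr 2
        ring

end

/-- the kernel as a function of all variables -/
noncomputable def gf {n : ℕ} (q : E n × ℝ × E n) : E n := gk q.1 q.2.1 q.2.2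

/-- the derivative of the kernel with respect to the first variable -/
noncomputable def Dp {n : ℕ} (q : E n × ℝ × E n) : E n →L[ℝ] E n :=
  (fderiv ℝ (gf (n := n)) q).comp (ContinuousLinearMap.inl ℝ (E n) (ℝ × E n))

lemma hasD {n : ℕ} (hsm : ContDiffOn ℝ 2 (gf (n := n)) {q : E n × ℝ × E n | ‖q.1‖ < 1})
    (p' : E n) (t : ℝ) (y : E n) (hp' : ‖p'‖ < 1) :
    HasFDerivAt (fun p'' => gk p'' t y) (Dp (p', t, y)) p' := by
  have hU : IsOpen {q : E n × ℝ × E n | ‖q.1‖ < 1} :=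
    isOpen_lt (by fun_prop) continuous_const
  have hmem : (p', t, y) ∈ {q : E n × ℝ × E n | ‖q.1‖ < 1} := hp'
  have h3 : DifferentiableAt ℝ (gf (n := n)) (p', t, y) :=
    (hsm.differentiableOn (by norm_num)).differentiableAt (hU.mem_nhds hmem)
  have h4 : HasFDerivAt (gf (n := n)) (fderiv ℝ gf (p', t, y)) (p', t, y) := h3.hasFDerivAt
  have h5 : HasFDerivAt (fun e : E n => (e, (t, y)))
      (ContinuousLinearMap.inl ℝ (E n) (ℝ × E n)) p' := hasFDerivAt_prodMk_left p' (t, y)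
  have h6 := HasFDerivAt.comp (g := gf (n := n)) (f := fun e : E n => (e, (t, y))) p' h4 h5
  exact h6

lemma contD {n : ℕ} (hsm : ContDiffOn ℝ 2 (gf (n := n)) {q : E n × ℝ × E n | ‖q.1‖ < 1})
    (p' : E n) (hp' : ‖p'‖ < 1) : Continuous (fun r : E n × ℝ => Dp (p', r.2, r.1)) := by
  have hU : IsOpen {q : E n × ℝ × E n | ‖q.1‖ < 1} :=
    isOpen_lt (by fun_prop) continuous_const
  have h4 : Continuous (fun r : E n × ℝ => fderiv ℝ (gf (n := n)) (p', r.2, r.1)) :=
    (hsm.continuousOn_fderiv_of_isOpen hU (by norm_num)).comp_continuous (by fun_prop)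
      fun r => hp'
  unfold Dp
  exact h4.clm_comp continuous_const

lemma contg {n : ℕ} (hsm : ContDiffOn ℝ 2 (gf (n := n)) {q : E n × ℝ × E n | ‖q.1‖ < 1})
    (p' : E n) (hp' : ‖p'‖ < 1) : Continuous (fun r : E n × ℝ => gk p' r.2 r.1) := by
  have : Continuous (fun r : E n × ℝ => gf (p', r.2, r.1)) :=
    hsm.continuousOn.comp_continuous (by fun_prop) fun r => hp'
  exact this

theorem main (_h1 : BoostAlg) (h2 : KerBound) (h3 : KerDeriv) : GGDer := by
  intro n φ hφ p hp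
  obtain ⟨ε, hε⟩ : ∃ ε : ℝ, ε = (1 - ‖p‖) / 2 := ⟨_, rfl⟩
  obtain ⟨ρ, hρ⟩ : ∃ ρ : ℝ, ρ = (1 + ‖p‖) / 2 := ⟨_, rfl⟩
  have ε0 : 0 < ε := by rw [hε]; linarith
  have ρ1 : ρ < 1 := by rw [hρ]; linarith
  obtain ⟨c, C, hc, hC, hb⟩ := h2 n ρ ρ1
  obtain ⟨hsm, hder⟩ := h3 n
  have hball : ∀ p' ∈ ball p ε, ‖p'‖ ≤ ρ := by
    intro p' hp'
    rw [mem_ball, dist_eq_norm] at hp'
    have : ‖p'‖ ≤ ‖p‖ + ‖p' - p‖ := by
      have := norm_add_le p (p' - p)
      simpa using this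
    rw [hρ]
    rw [hε] at hp'
    linarith
  have hball1 : ∀ p' ∈ ball p ε, ‖p'‖ < 1 := fun p' hp' => (hball p' hp').trans_lt ρ1
  have hpb : p ∈ ball p ε := mem_ball_self ε0
  -- smoothness
  have hsm' : ContDiffOn ℝ 2 (gf (n := n)) {q : E n × ℝ × E n | ‖q.1‖ < 1} := hsm
  have hDp : ∀ (p' : E n) (t : ℝ) (y : E n), ‖p'‖ < 1 →
      HasFDerivAt (fun p'' => gk p'' t y) (Dp (p', t, y)) p' := fun p' t y hp' =>
    hasD hsm' p' t y hp'
  have hDk : ∀ (p' : E n) (t : ℝ) (y a a' : E n), ‖p'‖ < 1 →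
      (inner ℝ (Dp (p', t, y) a) a' : ℝ) = dk p' a a' (Lam p' (t, y)) := by
    intro p' t y a a' hp'
    rw [← hder p' hp' t y a a', (hDp p' t y hp').fderiv]
  have hDn : ∀ p' ∈ ball p ε, ∀ (t : ℝ) (y : E n), |t| ≤ ‖y‖ →
      ‖Dp (p', t, y)‖ ≤ C * Real.exp (-(c * ‖y‖ ^ 2)) := by
    intro p' hp' t y ht
    refine ContinuousLinearMap.opNorm_le_bound _ (by positivity) fun a => ?_
    have h4 := (hb p' (hball p' hp') t y ht).2.2.2.2 a (Dp (p', t, y) a)
    rw [← hDk p' t y a _ (hball1 p' hp'), real_inner_self_eq_norm_sq, abs_of_nonneg (sq_nonneg _),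
      pow_two] at h4
    rcases (norm_nonneg (Dp (p', t, y) a)).eq_or_lt with h5 | h5
    · rw [← h5]
      positivity
    · exact le_of_mul_le_mul_right h4 h5
  have hgc : ∀ p' : E n, ‖p'‖ < 1 → Continuous (fun r : E n × ℝ => gk p' r.2 r.1) :=
    fun p' hp' => contg hsm' p' hp'
  have hDc : ∀ p' : E n, ‖p'‖ < 1 → Continuous (fun r : E n × ℝ => Dp (p', r.2, r.1)) :=
    fun p' hp' => contD hsm' p' hp'
  have hyt : ∀ y : E n, Continuous (fun t : ℝ => ((y, t) : E n × ℝ)) := fun y =>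
    Continuous.prodMk_right y
  have hgc1 : ∀ (p' y : E n), ‖p'‖ < 1 → Continuous (fun t : ℝ => gk p' t y) := by
    intro p' y hp'
    exact Continuous.comp (g := fun r : E n × ℝ => gk p' r.2 r.1)
      (f := fun t : ℝ => ((y, t) : E n × ℝ)) (hgc p' hp') (hyt y)
  have hDc1 : ∀ (p' y : E n), ‖p'‖ < 1 → Continuous (fun t : ℝ => Dp (p', t, y)) := by
    intro p' y hp'
    exact Continuous.comp (g := fun r : E n × ℝ => Dp (p', r.2, r.1))
      (f := fun t : ℝ => ((y, t) : E n × ℝ)) (hDc p' hp') (hyt y)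
  have hφc := cc_cont hφ
  have hιt : ∀ (y : E n) (t : ℝ), t ∈ Set.uIoc 0 (φ y) → |t| ≤ ‖y‖ := by
    intro y t ht
    refine le_trans ?_ (cc_le hφ y)
    rcases le_total 0 (φ y) with h | h
    · rw [Set.uIoc_of_le h] at ht
      rw [abs_of_pos ht.1, abs_of_nonneg h]
      exact ht.2
    · rw [Set.uIoc_of_ge h] at ht
      rw [abs_of_nonpos ht.2, abs_of_nonpos h]
      linarith [ht.1]
  -- the inner integral
  have hin : ∀ p' ∈ ball p ε, ∀ y : E n,
      HasFDerivAt (fun p'' => ∫ t in (0 : ℝ)..φ y, gk p'' t y)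
        (∫ t in (0 : ℝ)..φ y, Dp (p', t, y)) p' := by
    intro p' hp' y
    refine intervalIntegral.hasFDerivAt_integral_of_dominated_of_fderiv_le (𝕜 := ℝ)
      (F := fun (p'' : E n) (t : ℝ) => gk p'' t y) (F' := fun (p'' : E n) (t : ℝ) => Dp (p'', t, y))
      (μ := (volume : Measure ℝ)) (s := ball p ε)
      (bound := fun _ => C * Real.exp (-(c * ‖y‖ ^ 2))) (isOpen_ball.mem_nhds hp') ?_ ?_ ?_ ?_ ?_ ?_
    · filter_upwards [isOpen_ball.mem_nhds hp'] with q hq
      exact (hgc1 q y (hball1 q hq)).aestronglyMeasurable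
    · exact (hgc1 p' y (hball1 p' hp')).intervalIntegrable _ _
    · exact (hDc1 p' y (hball1 p' hp')).aestronglyMeasurable
    · exact Filter.Eventually.of_forall fun t ht q hq => hDn q hq t y (hιt y t ht)
    · exact intervalIntegrable_const
    · exact Filter.Eventually.of_forall fun t _ q hq => hDp q t y (hball1 q hq)
  have hinn : ∀ p' ∈ ball p ε, ∀ y : E n,
      ‖∫ t in (0 : ℝ)..φ y, Dp (p', t, y)‖ ≤ C * (‖y‖ * Real.exp (-(c * ‖y‖ ^ 2))) := by
    intro p' hp' y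
    have h4 := intervalIntegral.norm_integral_le_of_norm_le_const (a := (0 : ℝ)) (b := φ y)
      (f := fun t => Dp (p', t, y)) (C := C * Real.exp (-(c * ‖y‖ ^ 2)))
      fun t ht => hDn p' hp' t y (hιt y t ht)
    refine h4.trans ?_
    rw [sub_zero]
    have h5 := mul_le_mul_of_nonneg_left (cc_le hφ y)
      (show 0 ≤ C * Real.exp (-(c * ‖y‖ ^ 2)) by positivity)
    refine h5.trans (le_of_eq ?_)
    ring
  have hcg : ∀ p' : E n, ‖p'‖ < 1 → Continuous (fun y => ∫ t in (0 : ℝ)..φ y, gk p' t y) :=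
    fun p' hp' => intervalIntegral.continuous_parametric_intervalIntegral_of_continuous
      (f := fun y t => gk p' t y) (hgc p' hp') hφc
  have hcD : ∀ p' : E n, ‖p'‖ < 1 → Continuous (fun y => ∫ t in (0 : ℝ)..φ y, Dp (p', t, y)) :=
    fun p' hp' => intervalIntegral.continuous_parametric_intervalIntegral_of_continuous
      (f := fun y t => Dp (p', t, y)) (hDc p' hp') hφc
  have hbint : Integrable (fun y : E n => C * (‖y‖ * Real.exp (-(c * ‖y‖ ^ 2)))) :=
    (int_gauss hc).const_mul C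
  have hgint : Integrable (fun y => ∫ t in (0 : ℝ)..φ y, gk p t y) := by
    refine hbint.mono' (hcg p hp).aestronglyMeasurable (Filter.Eventually.of_forall fun y => ?_)
    have h4 := intervalIntegral.norm_integral_le_of_norm_le_const (a := (0 : ℝ)) (b := φ y)
      (f := fun t => gk p t y) (C := C * Real.exp (-(c * ‖y‖ ^ 2)))
      fun t ht => (hb p (hball p hpb) t y (hιt y t ht)).2.2.2.1
    refine h4.trans ?_
    rw [sub_zero]
    have h5 := mul_le_mul_of_nonneg_left (cc_le hφ y)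
      (show 0 ≤ C * Real.exp (-(c * ‖y‖ ^ 2)) by positivity)
    refine h5.trans (le_of_eq ?_)
    ring
  have hDint : Integrable (fun y => ∫ t in (0 : ℝ)..φ y, Dp (p, t, y)) :=
    hbint.mono' (hcD p hp).aestronglyMeasurable
      (Filter.Eventually.of_forall fun y => hinn p hpb y)
  have hout := hasFDerivAt_integral_of_dominated_of_fderiv_le
    (F := fun p' y => ∫ t in (0 : ℝ)..φ y, gk p' t y)
    (F' := fun p' y => ∫ t in (0 : ℝ)..φ y, Dp (p', t, y)) (μ := (volume : Measure (E n)))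
    (bound := fun y : E n => C * (‖y‖ * Real.exp (-(c * ‖y‖ ^ 2)))) (x₀ := p)
    (isOpen_ball.mem_nhds hpb)
    (by
      filter_upwards [isOpen_ball.mem_nhds hpb] with q hq
      exact (hcg q (hball1 q hq)).aestronglyMeasurable)
    hgint (hcD p hp).aestronglyMeasurable
    (Filter.Eventually.of_forall fun y q hq => hinn q hq y) hbint
    (Filter.Eventually.of_forall fun y q hq => hin q hq y)
  refine ⟨_, hout.sub (hasFDerivAt_id p), fun a a' => ?_⟩
  rw [_root_.sub_apply, inner_sub_left, ContinuousLinearMap.id_apply]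
  congr 1
  obtain ⟨Λ, hΛ⟩ : ∃ Λ : (E n →L[ℝ] E n) →L[ℝ] ℝ, ∀ T, Λ T = (inner ℝ (T a) a' : ℝ) :=
    ⟨(innerSL ℝ a').comp (ContinuousLinearMap.apply ℝ (E n) a), fun T => by
      simp [real_inner_comm]⟩
  rw [← hΛ, ← ContinuousLinearMap.integral_comp_comm Λ hDint]
  refine integral_congr_ae (Filter.Eventually.of_forall fun y => ?_)
  simp only
  rw [← ContinuousLinearMap.intervalIntegral_comp_comm Λ
    ((hDc1 p y hp).intervalIntegrable _ _)]
  refine intervalIntegral.integral_congr fun t _ => ?_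
  rw [hΛ, hDk p t y a a' hp]

end Pool.Agent.Q182.FC
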